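import Mathlib
import Pool.Agent.Lib.MP_2ab1ce_al.RelT
import Pool.Agent.Lib.MP_2ab1ce_al.Assembly

/-!
# Project TR (MP_2ab1ce_al): statements of the pieces

Aim: for `n ≥ 3` all Cayley graphs of `SL_n(p)` (all primes `p`) with respect to symmetric
generating sets in which elementary matrices `e_xy(a_xy)` (arbitrary coefficients, any basis)
forming a strongly connected digraph on at least three indices have bounded word length are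
uniformly expanding.

Every piece is `theorem p_xxx (hypotheses S_yyy) : S_xxx` in the file `TR/P/xxx.lean`.
The docstring of `S_xxx` contains the whole proof.
-/

namespace Pool.Agent.MP_2ab1ce_al.TR

open Finset MP2ab1ce

/-! ## Parameters and the basic functions -/

/-- The parameters: `K` huge, `s` tiny, `R` enormous. -/
structure Par where
  K : ℝ
  s : ℝ
  R : ℕ
  hK : 1000000 ≤ K
  hs : 0 < s
  hKs : K ^ s ≤ 1 + 1 / 10000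
  hR : 2 * K ≤ 2 * (R : ℝ) + 1
  hR4 : 400 ≤ ((2 * (R : ℝ) + 1) / K) ^ s
  hR8 : 8 / K * (2 * (2 * (R : ℝ)) ^ s) ≤ 1 / 10000

/-- `q x = min(K‖x‖, 1)^s` on the circle `ℝ/ℤ` (`UnitAddCircle`, norm `≤ 1/2`). -/
noncomputable def q (P : Par) (x : UnitAddCircle) : ℝ := (min (P.K * ‖x‖) 1) ^ P.s

/-- average over `n ∈ [-R, R]`. -/
noncomputable def avg (P : Par) (g : ℤ → ℝ) : ℝ :=
  (∑ n ∈ Icc (-(P.R : ℤ)) (P.R : ℤ), g n) / (2 * (P.R : ℝ) + 1)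

/-- `Q c i = sup_k (20/21)^k q(c (i+k))`. -/
noncomputable def Q (P : Par) (c : ℕ → UnitAddCircle) (i : ℕ) : ℝ :=
  ⨆ k : ℕ, (20 / 21 : ℝ) ^ k * q P (c (i + k))

/-- the elementary operation: add `n • c (i + σ)` to `c i` for all `i` of parity `ε`
(`ε = 0, 1`; `σ = 1, 3`). -/
def E (ε σ : ℕ) (n : ℤ) (c : ℕ → UnitAddCircle) : ℕ → UnitAddCircle :=
  fun i => if i % 2 = ε then c i + n • c (i + σ) else c i

/-- the averaged inverse of `Q` for one type of operation. -/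
noncomputable def G (P : Par) (c : ℕ → UnitAddCircle) (i ε σ : ℕ) : ℝ :=
  avg P (fun n => (Q P (E ε σ n c) i)⁻¹)

/-- sum over the four types of operations. -/
noncomputable def F (P : Par) (c : ℕ → UnitAddCircle) (i : ℕ) : ℝ :=
  G P c i 0 1 + G P c i 0 3 + G P c i 1 1 + G P c i 1 3

/-- all `Q c i` are bounded below by one positive constant. -/
def Pos (P : Par) (c : ℕ → UnitAddCircle) : Prop := ∃ δ : ℝ, 0 < δ ∧ ∀ i, δ ≤ Q P c i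

/-- the Lyapunov function. -/
noncomputable def Hf (P : Par) (c : ℕ → UnitAddCircle) : ℝ :=
  ∑' i : ℕ, (1 / 2 : ℝ) ^ i * (Q P c i)⁻¹

/-- PIECE par. Existence of parameters.
Proof: `K = 10^8`, `s = log (1 + 1/10000) / log K`, so `K^s = 1 + 1/10000`;
`R = ⌈K * 400^(1/s)⌉₊`. Then `(2R+1)/K ≥ 400^(1/s)`, so its `s`-th power is `≥ 400`;
`2K ≤ 2R + 1` as `400^(1/s) ≥ 1`; `R ≤ K 400^(1/s) + 1 ≤ 2 K 400^(1/s)`, so
`(2R)^s ≤ (4 K 400^(1/s))^s = 4^s K^s 400 ≤ K^s K^s 400 ≤ 401`, and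
`8/K * 2 * 401 = 6416 / 10^8 ≤ 1/10000`. -/
def S_par : Prop := Nonempty Par

/-- PIECE cnt. Counting `n` with `u + n v` close to `0`.
Proof: let `ν = ‖v‖ ∈ (0, 1/2]`; `v` is the class of a real `ν'` with `|ν'| = ν`
(`UnitAddCircle.norm_eq : ‖(x : UnitAddCircle)‖ = |x - round x|`: take a lift `x` of `v` and
`ν' = x - round x`), `u` the class of a real `μ`. If `‖u + n v‖ ≤ y` then with
`m = round (μ + n ν')` we have `|μ + n ν' - m| ≤ y`. The reals `μ + n ν'`, `-R ≤ n ≤ R`, lie in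
an interval of length `2Rν`, so these `m` lie in an interval of length `2Rν + 2y ≤ 2Rν + 1`,
hence take at most `2Rν + 2` values (a real interval of length `ℓ` contains at most `ℓ + 1`
integers, e.g. count `Icc ⌈a⌉ ⌊b⌋`). For fixed `m` the `n` with `|μ + n ν' - m| ≤ y` lie in an
interval of length `2y/ν`, so there are at most `2y/ν + 1` of them. Use
`Finset.card_le_mul_card_image` or `Finset.card_eq_sum_card_fiberwise`. -/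
def S_cnt : Prop := ∀ (u v : UnitAddCircle) (R : ℕ) (y : ℝ), v ≠ 0 → 0 ≤ y → y ≤ 1 / 2 →
  (((Icc (-(R : ℤ)) (R : ℤ)).filter (fun n : ℤ => ‖u + n • v‖ ≤ y)).card : ℝ) ≤
    (2 * R * ‖v‖ + 2) * (2 * y / ‖v‖ + 1)

/-- PIECE q. Elementary properties of `q`.
Proof: all from the monotonicity of `x ↦ x^s` (`s > 0`, `Real.rpow_le_rpow`),
`Real.one_rpow`, `Real.zero_rpow`, `Real.mul_rpow`. For the last one: `a ≤ 1`, so
`a * min (K‖y‖) 1 ≤ min (K‖x‖) 1`. -/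
def S_q : Prop := ∀ P : Par,
  (∀ x, 0 ≤ q P x) ∧ (∀ x, q P x ≤ 1) ∧ (∀ x, q P x = 0 ↔ x = 0) ∧
  (∀ x, 1 ≤ P.K * ‖x‖ → q P x = 1) ∧
  (∀ x, q P x < 1 → P.K * ‖x‖ < 1 ∧ q P x = (P.K * ‖x‖) ^ P.s) ∧
  (∀ x y : UnitAddCircle, ∀ a : ℝ, 0 < a → a ≤ 1 → a * min (P.K * ‖y‖) 1 ≤ P.K * ‖x‖ →
    a ^ P.s * q P y ≤ q P x)

/-- PIECE bad (two parts; the first uses `S_cnt`).
Proof of (1): by `S_cnt` (with `(u, v) := (w, u)`) the count is at most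
`(2R‖u‖ + 2)(2y/‖u‖ + 1) = 4Ry + 2R‖u‖ + 4y/‖u‖ + 2`. Here `4Ry ≤ 4R/K^2 ≤ (2R+1) 2/K^2`,
`2R‖u‖ ≤ (2R+1)/K`, `4y/‖u‖ ≤ 4(2R+1)/K`, `2 ≤ (2R+1)/K`; the sum is at most
`(2R+1)(2/K^2 + 6/K) ≤ (2R+1) 8/K`.
Proof of (2): two consecutive `n`, `n+1` cannot both be in the set: otherwise
`‖u‖ = ‖(w + (n+1)u) - (w + nu)‖ < 2y ≤ ‖u‖`. A set `A ⊆ [-R, R]` of integers without two
consecutive elements has at most `R + 1` elements: `A` and `A + 1` are disjoint subsets of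
`[-R, R+1]`, which has `2R + 2` elements. -/
def S_bad : Prop := ∀ P : Par, ∀ u w : UnitAddCircle, ∀ y : ℝ,
  (u ≠ 0 → P.K * ‖u‖ ≤ 1 → 0 ≤ y → y ≤ 1 / P.K ^ 2 → P.K * y ≤ (2 * (P.R : ℝ) + 1) * ‖u‖ →
    (((Icc (-(P.R : ℤ)) (P.R : ℤ)).filter (fun n : ℤ => ‖w + n • u‖ ≤ y)).card : ℝ) ≤
      8 / P.K * (2 * (P.R : ℝ) + 1)) ∧
  (2 * y ≤ ‖u‖ →
    ((Icc (-(P.R : ℤ)) (P.R : ℤ)).filter (fun n : ℤ => ‖w + n • u‖ < y)).card ≤ P.R + 1)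

/-- PIECE a1 (uses `S_q`, `S_bad`).
Proof: write `q = q P`. If `v = 0` every term is `(max (q u) 0)⁻¹ = (q u)⁻¹`. Let `v ≠ 0`, so
`q v > 0`. Put `y = min ‖u‖ (1/K) / K`. Call `n` bad if `‖u + n v‖ ≤ y`.
Good `n`: `K‖u + n v‖ ≥ K y = min ‖u‖ (1/K) = (1/K) min (K‖u‖) 1`, so by the last part of `S_q`
with `a = 1/K`: `q(u + n v) ≥ K^(-s) q u` and the term is at most
`K^s (q u)⁻¹ ≤ (1 + 1/10000)(q u)⁻¹`.
If there is no bad `n` we are done. If some `n ∈ [-R, R]` is bad, then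
`‖u‖ ≤ ‖u + n v‖ + |n| ‖v‖ ≤ ‖u‖/K + R‖v‖`, so `‖u‖ ≤ 2R‖v‖` (`K ≥ 2`; note `R ≥ 1`). Hence
`q v = (K‖v‖)^s ≥ (K‖u‖/(2R))^s ≥ (2R)^(-s) q u`, i.e. `(q v)⁻¹ ≤ (2R)^s (q u)⁻¹`, and a bad term
is at most `((20/21)^σ q v)⁻¹ ≤ 2 (2R)^s (q u)⁻¹` (`(21/20)^3 ≤ 2`). By part (1) of `S_bad` with
`(u, w) := (v, u)` (`y ≤ 1/K^2`, `K y ≤ ‖u‖ ≤ 2R‖v‖`) there are at most `(8/K)(2R+1)` bad `n`.
So the bad terms contribute at most `8/K * (2 (2R)^s) (q u)⁻¹ ≤ (1/10000)(q u)⁻¹` to the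
average, by `P.hR8`. -/
def S_a1 : Prop := ∀ P : Par, ∀ u v : UnitAddCircle, ∀ σ : ℕ, σ = 1 ∨ σ = 3 → u ≠ 0 →
  P.K * ‖v‖ < 1 →
  avg P (fun n => (max (q P (u + n • v)) ((20 / 21 : ℝ) ^ σ * q P v))⁻¹) ≤
    (1 + 2 / 10000) * (q P u)⁻¹

/-- PIECE a2 (uses `S_q`, `S_bad`).
Proof: `y = min ‖u‖ (1/K) / K ≤ 1/K^2`, `‖v‖ ≥ 1/K ≥ 2y`. Bad `n`: `‖u + n v‖ < y`; by part (2) of
`S_bad` there are at most `R + 1` bad `n`, with term at most `(21/20)^σ ≤ (21/20)^σ (q u)⁻¹`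
(`q u ≤ 1`). For good `n`, `K‖u + n v‖ ≥ K y = (1/K) min (K‖u‖) 1`, so `q(u + n v) ≥ K^(-s) q u`
and the term is at most `(1 + 1/10000)(q u)⁻¹`. With `b ≤ R + 1` bad terms the sum is at most
`(b (21/20)^σ + (2R + 1 - b)(1 + 1/10000)) (q u)⁻¹`, which is increasing in `b`, so at most
`((R+1)(21/20)^σ + R(1 + 1/10000))(q u)⁻¹`; divide by `2R + 1 ≥ 2·10^6`. -/
def S_a2 : Prop := ∀ P : Par, ∀ u v : UnitAddCircle, ∀ σ : ℕ, σ = 1 ∨ σ = 3 → u ≠ 0 →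
  1 ≤ P.K * ‖v‖ →
  avg P (fun n => (max (q P (u + n • v)) ((20 / 21 : ℝ) ^ σ))⁻¹) ≤
    (1 / 2 * (21 / 20) ^ σ + 1 / 2 + 1 / 5000) * (q P u)⁻¹

/-- PIECE b1 (uses `S_q`, `S_bad`).
Proof: bad `n`: `‖w + n u‖ < ‖u‖/2`; at most `R + 1` of them by part (2) of `S_bad`; there the
term is at most `(q u)⁻¹`. For good `n`: `K‖w + n u‖ ≥ (1/2) K‖u‖ ≥ (1/2) min (K‖u‖) 1`, so
`q(w + n u) ≥ (1/2)^s q u ≥ K^(-s) q u` and the term is at most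
`(20/21)^σ (1 + 1/10000)(q u)⁻¹ ≤ (q u)⁻¹`. So the sum is at most
`((R+1) + R (20/21)^σ (1 + 1/10000))(q u)⁻¹`; divide by `2R + 1 ≥ 2·10^6`. -/
def S_b1 : Prop := ∀ P : Par, ∀ u w : UnitAddCircle, ∀ σ : ℕ, σ = 1 ∨ σ = 3 → u ≠ 0 →
  avg P (fun n => (max (q P u) ((21 / 20 : ℝ) ^ σ * q P (w + n • u)))⁻¹) ≤
    (1 / 2 + 1 / 2 * (20 / 21) ^ σ + 1 / 5000) * (q P u)⁻¹

/-- PIECE b23 (uses `S_q`, `S_bad`).
Common part: `u ≠ 0`, `q u < 1`, so `K‖u‖ < 1` and `q u = (K‖u‖)^s`.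
Case A, `1/K ≤ (2R+1)‖u‖`: put `y = 1/K^2`; by `S_bad` (1) at most `(8/K)(2R+1)` of the `n` are bad
(`‖w + n u‖ ≤ y`), and for good `n`, `K‖w + n u‖ ≥ 1/K`, so `q(w + n u) ≥ K^(-s)`, i.e.
`q(w + n u)⁻¹ ≤ 1 + 1/10000`.
Case B, `(2R+1)‖u‖ < 1/K`: put `y = (2R+1)‖u‖/K < 1/K^2`; by `S_bad` (1) at most `(8/K)(2R+1)` of
the `n` are bad, and for good `n`, `K‖w + n u‖ ≥ (2R+1)‖u‖ = ((2R+1)/K)(K‖u‖)` and this is `≤ 1`, so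
`q(w + n u) ≥ ((2R+1)/K)^s q u ≥ 400 q u`.
(b2): `q u ≤ (20/21)^5`. Bad terms are `≤ (q u)⁻¹`. Good terms: case A: at most
`(20/21)(1 + 1/10000) ≤ (20/21)^6 (1 + 1/10000)(q u)⁻¹ ≤ (3/4)(q u)⁻¹`
(since `1 ≤ (20/21)^5 (q u)⁻¹`); case B: at most `(1/400)(q u)⁻¹`. Average at most
`(3/4 + 8/K)(q u)⁻¹ ≤ (4/5)(q u)⁻¹`.
(b3): `q u ≤ 1/400`. Bad terms are `≤ (21/20)(q u)⁻¹`. Good terms: case A: at most
`1 + 1/10000 ≤ (1 + 1/10000)(1/400)(q u)⁻¹`; case B: at most `(1/400)(q u)⁻¹`. Average at most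
`((1 + 1/10000)/400 + (8/K)(21/20))(q u)⁻¹ ≤ (1/200)(q u)⁻¹`. -/
def S_b23 : Prop := ∀ P : Par, ∀ u w : UnitAddCircle, u ≠ 0 →
  (q P u ≤ (20 / 21 : ℝ) ^ 5 →
    avg P (fun n => (max (q P u) ((21 / 20 : ℝ) * q P (w + n • u)))⁻¹) ≤
      4 / 5 * (q P u)⁻¹) ∧
  (q P u ≤ 1 / 400 →
    avg P (fun n => (max (q P (w + n • u)) ((20 / 21 : ℝ) * q P u))⁻¹) ≤
      1 / 200 * (q P u)⁻¹)

/-- PIECE Q (uses `S_q`). Elementary properties of `Q`.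
Proof: the family `k ↦ (20/21)^k q(c(i+k))` takes values in `[0, 1]`, so it is bounded above
(`le_ciSup`, `ciSup_le`). Attained if `Q > 0`: the terms tend to `0` (they are `≤ (20/21)^k`), so
all terms with `k ≥ k0` are `≤ Q/2`; hence `Q` is the maximum over `k < k0` (if all terms with
`k < k0` were `< Q` then `Q ≤ max(...) < Q`). `(20/21) Q c (i+1) ≤ Q c i`: the terms of
`(20/21) Q c (i+1)` are terms of `Q c i`.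
Last one: let `e = E ε σ n c`, `Λ = (R+1)^s`. For each `k` we show
`(20/21)^k q(c j) ≤ Λ (21/20)^3 Q e i`, `j = i + k`. If `j % 2 ≠ ε` then `e j = c j` and we are
done. If `j % 2 = ε` then `e j = c j + n c(j+σ)` and `e (j+σ) = c (j+σ)` (as `σ` is odd), so
`c j = e j - n e(j+σ)`, `‖c j‖ ≤ ‖e j‖ + R‖e(j+σ)‖ ≤ (R+1) max(‖e j‖, ‖e(j+σ)‖)`. If the maximum is
`‖e l‖` (`l = j` or `l = j+σ`), then `(1/(R+1)) min(K‖c j‖, 1) ≤ K‖e l‖`, so by the last part of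
`S_q`, `q(c j) ≤ Λ q(e l)`, and `(20/21)^k q(e l) ≤ (21/20)^3 (20/21)^(l-i) q(e l)
≤ (21/20)^3 Q e i`. -/
def S_Q : Prop := ∀ P : Par, ∀ c : ℕ → UnitAddCircle, ∀ i : ℕ,
  0 ≤ Q P c i ∧ Q P c i ≤ 1 ∧
  (∀ k, (20 / 21 : ℝ) ^ k * q P (c (i + k)) ≤ Q P c i) ∧
  (0 < Q P c i → ∃ k, Q P c i = (20 / 21 : ℝ) ^ k * q P (c (i + k))) ∧
  20 / 21 * Q P c (i + 1) ≤ Q P c i ∧
  (∀ (ε σ : ℕ) (n : ℤ), σ = 1 ∨ σ = 3 → |n| ≤ (P.R : ℤ) →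
    (20 / 21 : ℝ) ^ 3 * (((P.R : ℝ) + 1) ^ P.s)⁻¹ * Q P c i ≤ Q P (E ε σ n c) i)

/-- PIECE op1 (uses `S_q`, `S_Q`, `S_a1`, `S_a2`). The operations that do not help.
Let `j = i + k`, `Q = Q c i = (20/21)^k q(c j) > 0` (so `c j ≠ 0`); `avg` is monotone and
`Q(e) i ≥ x > 0` gives `(Q e i)⁻¹ ≤ x⁻¹`.
(1) `ε ≠ j % 2`: `e j = c j`, so `Q e i ≥ (20/21)^k q(c j) = Q` and each term is `≤ Q⁻¹`
(the average of a constant is the constant: `2R+1` terms).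
(2) `ε = j % 2`: `e j = c j + n c(j+σ)`, `e(j+σ) = c(j+σ)`, so
`Q e i ≥ (20/21)^k max (q(c j + n c(j+σ))) ((20/21)^σ q(c(j+σ)))`; pull out the constant
`(20/21)^k` and use `S_a1` with `u = c j`, `v = c(j+σ)`. (If the max is `0` then `v = 0` and
`q(c j) = 0`, impossible; in fact the max is `> 0`.)
(3) if `K‖c(j+σ)‖ < 1` use (2), as `1 + 2/10000 ≤ 1/2 (21/20)^σ + 1/2 + 1/5000`; otherwise
`q(c(j+σ)) = 1` and use `S_a2`.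
(4) `ε = j % 2`, `σ = 3`, and `K‖c(j+1)‖ ≥ 1`: now `e (j+1) = c(j+1)` too (other parity), with
`q(c(j+1)) = 1`, so `Q e i ≥ (20/21)^k max (q(c j + n c(j+3))) ((20/21)^1)`. If
`K‖c(j+3)‖ < 1` use (2) again; otherwise use `S_a2` with `u = c j`, `v = c(j+3)` and its `σ := 1`. -/
def S_op1 : Prop := ∀ P : Par, ∀ c : ℕ → UnitAddCircle, ∀ i k ε : ℕ, 0 < Q P c i →
  Q P c i = (20 / 21 : ℝ) ^ k * q P (c (i + k)) →
  (∀ σ, ε ≠ (i + k) % 2 → G P c i ε σ ≤ (Q P c i)⁻¹) ∧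
  (∀ σ, σ = 1 ∨ σ = 3 → ε = (i + k) % 2 → P.K * ‖c (i + k + σ)‖ < 1 →
    G P c i ε σ ≤ (1 + 2 / 10000) * (Q P c i)⁻¹) ∧
  (∀ σ, σ = 1 ∨ σ = 3 → ε = (i + k) % 2 →
    G P c i ε σ ≤ (1 / 2 * (21 / 20) ^ σ + 1 / 2 + 1 / 5000) * (Q P c i)⁻¹) ∧
  (ε = (i + k) % 2 → 1 ≤ P.K * ‖c (i + k + 1)‖ →
    G P c i ε 3 ≤ (1 / 2 * (21 / 20) + 1 / 2 + 1 / 5000) * (Q P c i)⁻¹)

/-- PIECE op2 (uses `S_q`, `S_Q`, `S_b1`, `S_b23`). The operations that help.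
(1) `j = i + k`, `Q c i = (20/21)^k q(c j) > 0`, `σ ≤ k`, `ε < 2`, `ε ≠ j % 2`. Put `l = j - σ ≥ i`;
`l % 2 = ε` (`σ` odd), so `e l = c l + n c j` and `e j = c j`, hence
`Q e i ≥ max ((20/21)^k q(c j)) ((20/21)^(k-σ) q(c l + n c j))
 = (20/21)^k max (q(c j)) ((21/20)^σ q(c l + n c j))`; use `S_b1` with `u = c j`, `w = c l`.
(2) same with `σ = 1 ≤ k`, `q(c j) ≤ (20/21)^5`: use `S_b23` (first part).
(3) `m = i + 1 + k`, `Q c (i+1) = (20/21)^k q(c m) > 0`, `q(c m) ≤ 1/400`, `ε < 2`, `ε ≠ m % 2`,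
`σ = 1`: `l = m - 1 = i + k` has `l % 2 = ε`, `e l = c l + n c m`, `e m = c m`, so
`Q e i ≥ max ((20/21)^k q(c l + n c m)) ((20/21)^(k+1) q(c m))
 = (20/21)^k max (q(c l + n c m)) ((20/21) q(c m))`; use the second part of `S_b23`: the average
is at most `(20/21)^(-k) (1/200) q(c m)⁻¹ = (1/200) (Q c (i+1))⁻¹`. -/
def S_op2 : Prop := ∀ P : Par, ∀ c : ℕ → UnitAddCircle, ∀ i k ε : ℕ, ε < 2 →
  (0 < Q P c i → Q P c i = (20 / 21 : ℝ) ^ k * q P (c (i + k)) → ε ≠ (i + k) % 2 →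
    (∀ σ, σ = 1 ∨ σ = 3 → σ ≤ k →
      G P c i ε σ ≤ (1 / 2 + 1 / 2 * (20 / 21) ^ σ + 1 / 5000) * (Q P c i)⁻¹) ∧
    (1 ≤ k → q P (c (i + k)) ≤ (20 / 21 : ℝ) ^ 5 → G P c i ε 1 ≤ 4 / 5 * (Q P c i)⁻¹)) ∧
  (0 < Q P c (i + 1) → Q P c (i + 1) = (20 / 21 : ℝ) ^ k * q P (c (i + 1 + k)) →
    q P (c (i + 1 + k)) ≤ 1 / 400 → ε ≠ (i + 1 + k) % 2 →
    G P c i ε 1 ≤ 1 / 200 * (Q P c (i + 1))⁻¹)

/-- PIECE tri (uses `S_q`, `S_Q`, `S_op1`, `S_op2`). The trichotomy.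
Let `Pos c`, so `Q = Q c i > 0`, attained at `k` (by `S_Q`): `Q = (20/21)^k q(c j)`, `j = i + k`.
Among the four operations `(ε, σ)`, two have `ε = j % 2` and two have the other parity.
(c0) `F ≤ 6/Q`: the operations with `ε ≠ j % 2` give `≤ 1/Q` each, those with `ε = j % 2` give
`≤ (1/2 (21/20)^σ + 1/2 + 1/5000)/Q ≤ 2/Q` each.
From now on `Q < 1/1000`.
(c3) `k ≥ 3`: `F ≤ (4 - 1/100)/Q`. Helping operations (`ε ≠ j % 2`, `S_op2` (1), `σ = 1, 3`):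
`(1/2 + 1/2 (20/21) + 1/5000) + (1/2 + 1/2 (20/21)^3 + 1/5000) ≤ 1.9086`. Others: if
`K‖c(j+1)‖ ≥ 1`: `S_op1` (3) with `σ = 1` and (4): `≤ 2 (1/2 (21/20) + 1/2 + 1/5000) ≤ 2.0505`, total
`≤ 3.96`. If `K‖c(j+1)‖ < 1`: `S_op1` (2) with `σ = 1` and (3) with `σ = 3`:
`≤ (1 + 2/10000) + (1/2 (21/20)^3 + 1/2 + 1/5000) ≤ 2.0793`, total `≤ 3.988`.
(c2) `k ∈ {1, 2}`: `q(c j) = (21/20)^k Q ≤ (20/21)^5`. For `σ = 1, 3`:
`(20/21)^(k+σ) q(c(j+σ)) ≤ Q = (20/21)^k q(c j)`, so `q(c(j+σ)) ≤ (21/20)^3 (20/21)^5 < 1` and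
`K‖c(j+σ)‖ < 1`; `S_op1` (2) gives `(1 + 2/10000)/Q` twice; `S_op1` (1) gives `1/Q` (for `σ = 3`) and
`S_op2` (2) gives `(4/5)/Q` (for `σ = 1`): total `≤ 3.801/Q`.
(c1) `k = 0`: `q(c i) = Q < 1/1000`, and `(20/21)^σ q(c(i+σ)) ≤ Q < 1/1000` gives
`q(c(i+σ)) < 1`, `K‖c(i+σ)‖ < 1`; `S_op1` (1), (2): each operation with `ε = i % 2` gives at most
`(1 + 2/10000)/Q`, the others `≤ 1/Q`; so `F ≤ (4 + 1/2500)/Q`. If `4 Q c (i+1) < Q` this is the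
second alternative. So let `Q ≤ 4 Q c (i+1)`. Let `Q c (i+1) = (20/21)^k' q(c m)`,
`m = i + 1 + k'`.
(c4) If `q(c m) ≤ 1/400`: for the `ε < 2` with `ε ≠ m % 2`, `S_op2` (3) gives
`G c i ε 1 ≤ (1/200)/Q c (i+1) ≤ (4/200)/Q`; the other three operations are `≤ (1 + 2/10000)/Q`
each (as in (c1)). Total `≤ 3.03/Q`: first alternative.
(c5) If `q(c m) > 1/400`: `Q c (i+1) ≤ (21/20) Q < 21/20000`, so
`(20/21)^k' = Q c (i+1) / q(c m) < 0.42 < (20/21)^2`, so `k' ≥ 3`. Then (c3) applied to `i + 1`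
(it did not use `Q < 1/1000`) gives the third alternative. -/
def S_tri : Prop := ∀ P : Par, ∀ c : ℕ → UnitAddCircle, Pos P c → ∀ i : ℕ,
  F P c i ≤ 6 * (Q P c i)⁻¹ ∧
  (Q P c i < 1 / 1000 →
    F P c i ≤ (4 - 1 / 100) * (Q P c i)⁻¹ ∨
    (F P c i ≤ (4 + 1 / 2500) * (Q P c i)⁻¹ ∧ 4 * Q P c (i + 1) < Q P c i) ∨
    (F P c i ≤ (4 + 1 / 2500) * (Q P c i)⁻¹ ∧
      F P c (i + 1) ≤ (4 - 1 / 100) * (Q P c (i + 1))⁻¹))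

/-- PIECE sum. A summation lemma about real series.
Proof: put `φ i = (if f i ≤ (4 - 1/100) a i then 6/1000 else 14/10000) * a i`. Claim:
`f i + φ i ≤ (4 - 1/1000) a i + φ (i+1) + 2100 (1/2)^i` for every `i`.
If `f i ≤ (4 - 1/100) a i`: `f i + φ i ≤ (4 - 1/100 + 6/1000) a i ≤ (4 - 1/1000) a i`.
Otherwise `φ i = 14/10000 a i`. If `a i ≤ 1000 (1/2)^i`: `f i + φ i ≤ (6 + 14/10000) a i
≤ (4 - 1/1000) a i + 2.0024 a i`. If `f i ≤ (4 + 1/2500) a i`, then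
`f i + φ i ≤ (4 - 1/1000) a i + (28/10000) a i`; in the third alternative
`(28/10000) a i ≤ (14/10000) a (i+1) ≤ φ (i+1)`; in the fourth alternative
`(28/10000) a i ≤ (28/10000)(21/10) a (i+1) ≤ (6/1000) a (i+1) = φ (i+1)`.
Now sum: `φ ≤ (6/1000) a` and `f ≤ 6 a` are summable, `∑ φ (i+1) ≤ ∑ φ i`, and
`∑ 2100 (1/2)^i = 4200`. -/
def S_sum : Prop := ∀ a f : ℕ → ℝ, (∀ i, 0 < a i) → Summable a → (∀ i, 0 ≤ f i) →
  (∀ i, f i ≤ 6 * a i) → (∀ i, a i ≤ 21 / 10 * a (i + 1)) →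
  (∀ i, a i ≤ 1000 * (1 / 2) ^ i ∨ f i ≤ (4 - 1 / 100) * a i ∨
    (f i ≤ (4 + 1 / 2500) * a i ∧ a i ≤ 1 / 2 * a (i + 1)) ∨
    (f i ≤ (4 + 1 / 2500) * a i ∧ f (i + 1) ≤ (4 - 1 / 100) * a (i + 1))) →
  ∑' i, f i ≤ (4 - 1 / 1000) * ∑' i, a i + 13000

/-- PIECE lya (uses `S_Q`, `S_tri`, `S_sum`). The drift inequality.
Proof: by `S_Q`, for `|n| ≤ R` and `σ ∈ {1, 3}`, `Pos (E ε σ n c)` holds, so all the series
`∑ (1/2)^i (Q (E ε σ n c) i)⁻¹` are summable (terms `≤ (1/2)^i δ⁻¹`). Exchanging the finite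
averages with `tsum` (`Summable.tsum_finsetSum`, `tsum_div_const`, `Summable.tsum_add`) the
left-hand side is `∑' i, (1/2)^i F c i`. Apply `S_sum` with `a i = (1/2)^i (Q c i)⁻¹`,
`f i = (1/2)^i F c i`: `a i ≤ (21/10) a (i+1)` because `(20/21) Q c (i+1) ≤ Q c i`; if
`Q c i ≥ 1/1000` then `a i ≤ 1000 (1/2)^i`; otherwise use the three alternatives of `S_tri`
(`4 Q c (i+1) < Q c i` gives `a i ≤ (1/2) a (i+1)`). -/
def S_lya : Prop := ∀ P : Par, ∀ c : ℕ → UnitAddCircle, Pos P c →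
  avg P (fun n => Hf P (E 0 1 n c)) + avg P (fun n => Hf P (E 0 3 n c)) +
  avg P (fun n => Hf P (E 1 1 n c)) + avg P (fun n => Hf P (E 1 3 n c)) ≤
    (4 - 1 / 1000) * Hf P c + 13000

/-! ## The sequence attached to a frequency -/

/-- the sequence `ζ₂/p, ζ₁/p, tζ₂/p, tζ₁/p, t²ζ₂/p, …` on the circle. -/
noncomputable def cz (p : ℕ) [Fact p.Prime] (t : ZMod p) (ζ : ZMod p × ZMod p) (i : ℕ) :
    UnitAddCircle :=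
  ZMod.toAddCircle (t ^ (i / 2) * (if i % 2 = 0 then ζ.2 else ζ.1))

/-- PIECE fp (uses `S_q`, `S_Q`). The sequences `cz`.
`shearB m ζ = (ζ.1, ζ.2 + m ζ.1)`, `shearA m ζ = (ζ.1 + m ζ.2, ζ.2)` (in `RelT.lean`).
Proof of `Pos`: `toAddCircle` is injective; for `x ≠ 0` in `ZMod p`, `toAddCircle x ≠ 0`; let `δ0 > 0`
be the minimum of `q (toAddCircle x)` over the finitely many `x ≠ 0`. One of `ζ.1, ζ.2` is nonzero,
so one of `cz i`, `cz (i+1)` is `toAddCircle` of a nonzero element, and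
`Q cz i ≥ (20/21) δ0` by `S_Q` (third part with `k = 0` or `1`).
The identities: `toAddCircle` is additive and `toAddCircle ((n : ZMod p) * x) = n • toAddCircle x`.
For even `i`: `t^(i/2)(ζ.2 + n ζ.1) = t^(i/2) ζ.2 + n t^((i+1)/2) ζ.1`, and with `n t` instead of `n`
one gets `t^((i+3)/2)`; for odd `i`: `t^(i/2)(ζ.1 + n t ζ.2) = t^(i/2) ζ.1 + n t^((i+1)/2) ζ.2`, and
with `t²` one gets `t^((i+3)/2)`. The other coordinates do not change. -/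
def S_fp : Prop := ∀ (p : ℕ) [Fact p.Prime] (t : ZMod p) (ζ : ZMod p × ZMod p),
  (∀ P : Par, t ≠ 0 → ζ ≠ 0 → Pos P (cz p t ζ)) ∧
  (∀ n : ℤ, cz p t (shearB ((n : ZMod p) * 1) ζ) = E 0 1 n (cz p t ζ)) ∧
  (∀ n : ℤ, cz p t (shearB ((n : ZMod p) * t) ζ) = E 0 3 n (cz p t ζ)) ∧
  (∀ n : ℤ, cz p t (shearA ((n : ZMod p) * t) ζ) = E 1 1 n (cz p t ζ)) ∧
  (∀ n : ℤ, cz p t (shearA ((n : ZMod p) * t ^ 2) ζ) = E 1 3 n (cz p t ζ))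

/-- PIECE nz (uses `S_q`, `S_Q`).
Proof: let `B' = max B 1`. `Hf c < B` gives `(Q c 0)⁻¹ < B'` (the term `i = 0` of a summable series
of nonnegative terms; summable by `Pos`), so `Q c 0 > 1/B'`. By `S_Q`,
`Q c 0 = (20/21)^k q(c k)`; as both factors are `≤ 1`, both are `> 1/B'`. Take `L` with
`(20/21)^L < 1/B'` (`exists_pow_lt_of_lt_one`); then `k < L`. And
`q(c k) = (min (K‖c k‖) 1)^s > 1/B'` gives `K‖c k‖ ≥ min (K‖c k‖) 1 ≥ (1/B')^(1/s)`, so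
`δ1 = (1/B')^(1/s) / K` works. -/
def S_nz : Prop := ∀ P : Par, ∀ B : ℝ, ∃ (L : ℕ) (δ1 : ℝ), 0 < δ1 ∧
  ∀ c : ℕ → UnitAddCircle, Pos P c → Hf P c < B → ∃ j < L, δ1 ≤ ‖c j‖

/-- PIECE sch. A Schur test.
Proof: `e i` maps `D` onto `D` (finite, injective), so `x ∈ D ↔ e i x ∈ D`. Let
`B = {x ∈ D | H x < 2C/ρ}`, `D' = D \ B`, `g = f` on `D'` and `0` elsewhere, `N = card ι`.
(1) For `x ∈ D`: `2 g(x) g(e_i x) ≤ g(x)² H(e_i x)/H(x) + g(e_i x)² H(x)/H(e_i x)`. Sum over `x ∈ D`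
and `i`. In the second sum substitute `y = e_i x`: `∑_i ∑_{y ∈ D} g(y)² H(e_i⁻¹ y)/H(y)`, and
`e_i⁻¹ = e_(inv i)`, `inv` is a bijection of `ι`, so it equals the first sum. Hence
`2 ∑_i ∑_x g(x) g(e_i x) ≤ 2 ∑_{y ∈ D'} g(y)²/H(y) ∑_i H(e_i y)
≤ 2 ∑_{y ∈ D'} g(y)² (N - ρ + C/H(y)) ≤ 2 (N - ρ/2) ∑ g²`, since `H(y) ≥ 2C/ρ` on `D'`.
(2) So `∑_i ∑_x (g(e_i x) - g(x))² = 2N ∑ g² - 2 ∑_i ∑_x g(x) g(e_i x) ≥ ρ ∑ g²`.
(3) For `x ∈ D`: `g(e_i x) - g(x) = (f(e_i x) - f(x)) - f1_B(e_i x) + f1_B(x)`, for `x ∉ D` it is `0`.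
By `(a+b+c)² ≤ 3(a²+b²+c²)`, `∑_x (g(e_i x) - g(x))² ≤ 3(Δ² + 2m²)`.
(4) `ρ ∑ g² ≤ N (3Δ² + 6m²)`, and `∑_D f² = ∑ g² + ∑_B f²`. -/
def S_sch : Prop := ∀ (X ι : Type) [Fintype X] [DecidableEq X] [Fintype ι]
  (e : ι → Equiv.Perm X) (inv : ι → ι), (∀ i, inv (inv i) = i) → (∀ i, e (inv i) = (e i)⁻¹) →
  ∀ D : Finset X, (∀ i, ∀ x ∈ D, e i x ∈ D) → ∀ H : X → ℝ, (∀ x ∈ D, 0 < H x) →
  ∀ ρ C : ℝ, 0 < ρ → 0 ≤ C →
  (∀ x ∈ D, ∑ i, H (e i x) ≤ ((Fintype.card ι : ℝ) - ρ) * H x + C) →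
  ∀ (f : X → ℝ) (Δ m : ℝ), (∀ i, ∑ x, (f (e i x) - f x) ^ 2 ≤ Δ ^ 2) →
  ∑ x ∈ D.filter (fun x => H x < 2 * C / ρ), f x ^ 2 ≤ m ^ 2 →
  ∑ x ∈ D, f x ^ 2 ≤ (Fintype.card ι : ℝ) / ρ * (3 * Δ ^ 2 + 6 * m ^ 2) + m ^ 2

/-- PIECE spec. Frequencies with a coordinate away from `0` carry little mass.
Proof: (0) for `x : ZMod p`, `4‖toAddCircle x‖ ≤ ‖stdAddChar x - 1‖`: if `X = x.valMinAbs`, then
`‖toAddCircle x‖ = |X|/p` and `‖stdAddChar x - 1‖ = 2 |sin (π X/p)| ≥ 4 |X|/p`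
(see `char_lower` in `RelT.lean`; `Real.mul_le_sin`).
(1) `specP U ζ (U z v - v) = (stdAddChar (dot ζ z) - 1) • specP U ζ v` (`specP_sub`, `specP_U`), with
`dot ζ (0, t^l) = ζ.2 t^l` and `dot ζ (t^l, 0) = ζ.1 t^l`; so for the frequencies in the sum
`4 δ1 ‖specP U ζ v‖ ≤ ‖specP U ζ (U z v - v)‖`; sum the squares and use `parseval`. -/
def S_spec : Prop := ∀ (p : ℕ) [Fact p.Prime] (t : ZMod p) (H : Type) [NormedAddCommGroup H]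
  [InnerProductSpace ℂ H] (U : ZMod p × ZMod p → (H ≃ₗᵢ[ℂ] H)),
  (∀ z z', U (z + z') = U z * U z') → ∀ (v : H) (κ δ1 : ℝ), 0 < δ1 → ∀ l : ℕ,
  (‖U (0, t ^ l) v - v‖ ≤ κ →
    ∑ ζ ∈ univ.filter (fun ζ => δ1 ≤ ‖cz p t ζ (2 * l)‖), ‖specP U ζ v‖ ^ 2 ≤
      (κ / (4 * δ1)) ^ 2) ∧
  (‖U (t ^ l, 0) v - v‖ ≤ κ →
    ∑ ζ ∈ univ.filter (fun ζ => δ1 ≤ ‖cz p t ζ (2 * l + 1)‖), ‖specP U ζ v‖ ^ 2 ≤
      (κ / (4 * δ1)) ^ 2)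

/-- PIECE tra. Powers of `t` are short.
Proof: induction on `l`; `l = 0` is the hypothesis. Let `M = 3 * 4^l * δ` bound both displacements.
By the intertwining relation with `z = (0, t^l)`: `U (t^(l+1), t^l) (a v) = a (U (0, t^l) v)`, so
`‖U (t^(l+1), t^l) v - v‖ ≤ ‖U (0, t^l) v - v‖ + 2‖a v - v‖ ≤ M + 2δ` (all maps are isometries).
`U (t^(l+1), 0) = U (t^(l+1), t^l) * U (0, -t^l)` and `U (0, -t^l)` is inverse to `U (0, t^l)`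
(note `U 0 = 1`), so it moves `v` by at most `M`. So `‖U (t^(l+1), 0) v - v‖ ≤ 2M + 2δ ≤ 3 4^(l+1) δ`.
Symmetrically with `b` and `z = (t^l, 0)` for `U (0, t^(l+1))`. -/
def S_tra : Prop := ∀ (p : ℕ) [Fact p.Prime] (t : ZMod p) (H : Type) [NormedAddCommGroup H]
  [InnerProductSpace ℂ H] (U : ZMod p × ZMod p → (H ≃ₗᵢ[ℂ] H)),
  (∀ z z', U (z + z') = U z * U z') → ∀ a b : H ≃ₗᵢ[ℂ] H,
  (∀ z w, U (z.1 + t * z.2, z.2) (a w) = a (U z w)) →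
  (∀ z w, U (z.1, z.2 + t * z.1) (b w) = b (U z w)) → ∀ (v : H) (δ : ℝ),
  ‖a v - v‖ ≤ δ → ‖b v - v‖ ≤ δ → ‖U (1, 0) v - v‖ ≤ δ → ‖U (0, 1) v - v‖ ≤ δ →
  ∀ l : ℕ, ‖U (t ^ l, 0) v - v‖ ≤ 3 * 4 ^ l * δ ∧ ‖U (0, t ^ l) v - v‖ ≤ 3 * 4 ^ l * δ

/-- PIECE mov. The spectral masses are almost invariant under the shears.
Proof of (1): for every `n : ℤ`, `a ^ n` (group `H ≃ₗᵢ[ℂ] H`) satisfies
`U (z.1 + n m z.2, z.2) (a^n w) = a^n (U z w)` (induction, also for `a⁻¹`), and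
`‖a^n v - v‖ ≤ |n| δ`. By `specP_a` with `m := n m`:
`specP U ζ (a^n v) = a^n (specP U (ζ.1, ζ.2 + n m ζ.1) v)`, so `‖specP U (shearB (n m) ζ) v‖ =
‖specP U ζ (a^n v)‖`, and `(‖x‖ - ‖y‖)² ≤ ‖x - y‖²` with `specP_sub` and `parseval` gives
`∑ ≤ ‖a^n v - v‖²`. (2) is the same with `specP_b`. -/
def S_mov : Prop := ∀ (p : ℕ) [Fact p.Prime] (m : ZMod p) (H : Type) [NormedAddCommGroup H]
  [InnerProductSpace ℂ H] (U : ZMod p × ZMod p → (H ≃ₗᵢ[ℂ] H)) (a : H ≃ₗᵢ[ℂ] H) (v : H) (δ : ℝ),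
  ‖a v - v‖ ≤ δ → ∀ n : ℤ,
  ((∀ z w, U (z.1 + m * z.2, z.2) (a w) = a (U z w)) →
    ∑ ζ, (‖specP U (shearB ((n : ZMod p) * m) ζ) v‖ - ‖specP U ζ v‖) ^ 2 ≤ (|(n : ℝ)| * δ) ^ 2) ∧
  ((∀ z w, U (z.1, z.2 + m * z.1) (a w) = a (U z w)) →
    ∑ ζ, (‖specP U (shearA ((n : ZMod p) * m) ζ) v‖ - ‖specP U ζ v‖) ^ 2 ≤ (|(n : ℝ)| * δ) ^ 2)

/-- the uniform relative property (T) estimate with constant `C`. -/
def RelC (C : ℝ) : Prop := ∀ (p : ℕ) [Fact p.Prime] (t : ZMod p), t ≠ 0 →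
  ∀ (H : Type) [NormedAddCommGroup H] [InnerProductSpace ℂ H]
  (U : ZMod p × ZMod p → (H ≃ₗᵢ[ℂ] H)), (∀ z z', U (z + z') = U z * U z') →
  ∀ a1 a3 b1 b3 : H ≃ₗᵢ[ℂ] H,
  (∀ z w, U (z.1 + 1 * z.2, z.2) (a1 w) = a1 (U z w)) →
  (∀ z w, U (z.1 + t * z.2, z.2) (a3 w) = a3 (U z w)) →
  (∀ z w, U (z.1, z.2 + t * z.1) (b1 w) = b1 (U z w)) →
  (∀ z w, U (z.1, z.2 + t ^ 2 * z.1) (b3 w) = b3 (U z w)) →
  ∀ v : H, ‖v‖ = 1 → ∀ δ : ℝ, 0 ≤ δ → ‖a1 v - v‖ ≤ δ → ‖a3 v - v‖ ≤ δ → ‖b1 v - v‖ ≤ δ →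
  ‖b3 v - v‖ ≤ δ → ‖U (1, 0) v - v‖ ≤ δ → ‖U (0, 1) v - v‖ ≤ δ →
  ∀ z, ‖U z v - v‖ ≤ C * δ

/-- PIECE rel (uses `S_par`, `S_lya`, `S_fp`, `S_nz`, `S_sch`, `S_spec`, `S_tra`, `S_mov`).
Proof: take `P : Par`, `R = P.R`, `N = 2R + 1`. Apply `S_nz` with `B = 26000000` to get `L, δ1`.
Given the data, let `f ζ = ‖specP U ζ v‖`, `X = ZMod p × ZMod p`, `D = {ζ ≠ 0}`,
`H ζ = Hf P (cz p t ζ)` (positive on `D` by `Pos`). Index set `ι = Fin 4 × Icc (-R) R` (or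
`Bool × Bool × …`), `e (·, n)` the four shears `shearB (n·1)`, `shearB (n t)`, `shearA (n t)`,
`shearA (n t²)` as permutations, `inv (x, n) = (x, -n)`. `card ι = 4N`. The drift inequality `S_lya`
multiplied by `N` gives `∑_i H(e_i ζ) ≤ (4N - N/1000) H ζ + 13000 N`, so `ρ = N/1000`,
`C = 13000 N`, `2C/ρ = 26000000`. By `S_mov`, `Δ = R δ`. For `ζ ∈ D` with `H ζ < 26000000` there is
`j < L` with `δ1 ≤ ‖cz p t ζ j‖`; so by `S_spec` and `S_tra` (with `a := a3`, `b := b1`,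
`κ = 3 4^(j/2) δ ≤ 3 4^L δ`) the mass of these `ζ` is at most `L (3 4^L δ/(4 δ1))² ≤ m²` with
`m = (L + 1) (3 4^L/(4 δ1)) δ`. `S_sch` gives `∑_{ζ ≠ 0} f² ≤ C' δ²` with
`C' = 4000 (3 R² + 6 m'²) + m'²`, `m = m' δ`. Finally (as at the end of `relT` in `RelT.lean`)
`‖U z v - v‖² = ∑_ζ |stdAddChar (dot ζ z) - 1|² f(ζ)² ≤ 4 ∑_{ζ ≠ 0} f² ≤ 4 C' δ²`, so
`C = 2 √C' + 1` works. -/
def S_rel : Prop := ∃ C : ℝ, 0 < C ∧ RelC C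

/-! ## The group side -/

open Matrix in
/-- basis vector of the frame `h`. -/
noncomputable def bv {n p : ℕ} [Fact p.Prime] (h : GL (Fin n) (ZMod p)) (x : Fin n) :
    Fin n → ZMod p :=
  (h : Matrix (Fin n) (Fin n) (ZMod p)) *ᵥ (Pi.single x 1)

open Matrix in
/-- dual basis functional of the frame `h`. -/
noncomputable def fv {n p : ℕ} [Fact p.Prime] (h : GL (Fin n) (ZMod p)) (y : Fin n) :
    Module.Dual (ZMod p) (Fin n → ZMod p) :=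
  (LinearMap.proj y).comp
    (Matrix.toLin' ((h⁻¹ : GL (Fin n) (ZMod p)) : Matrix (Fin n) (Fin n) (ZMod p)))

open Matrix in
/-- elementary matrix `e_xy(a)` in the frame `h`. -/
noncomputable def el {n p : ℕ} [Fact p.Prime] (h : GL (Fin n) (ZMod p)) (x y : Fin n)
    (a : ZMod p) : SpecialLinearGroup (Fin n) (ZMod p) :=
  TT (a • bv h x) (fv h y)

open Matrix in
/-- PIECE el. Elementary matrices in a frame.
Proof: see the proof of `core` in `Assembly.lean` (`ψb`, the computation in `seed`, `T_comm'`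
with `u' = l • bv h r`, `ψ' = fv h s`, `e = m • bv h s`, `ψ = fv h t`). For the matrix identity use
`rho_injective`-style arguments or compare `mulVec` on all vectors (`TT_spec`). -/
def S_el : Prop := ∀ (n p : ℕ) [Fact p.Prime] (h : GL (Fin n) (ZMod p)),
  (∀ x y, fv h y (bv h x) = if y = x then 1 else 0) ∧
  (∀ x y : Fin n, x ≠ y → ∀ a : ZMod p,
    ((el h x y a : SpecialLinearGroup (Fin n) (ZMod p)) : Matrix (Fin n) (Fin n) (ZMod p)) =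
      (h : Matrix (Fin n) (Fin n) (ZMod p)) * transvection x y a *
        ((h⁻¹ : GL (Fin n) (ZMod p)) : Matrix (Fin n) (Fin n) (ZMod p))) ∧
  (∀ r s t : Fin n, r ≠ s → s ≠ t → r ≠ t → ∀ l m : ZMod p,
    el h r t (l * m) = el h r s l * el h s t m * (el h r s l)⁻¹ * (el h s t m)⁻¹)

open Matrix in
/-- PIECE grp (uses `S_el`; `T_inter`, `T_add`, `bounded_gen`, `det_rho`, … from the existing files;
imitate the proof of `core` in `Assembly.lean`).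
Proof: `κ g = ‖piG g v - v‖` satisfies `κ 1 = 0`, `κ (g g') ≤ κ g + κ g'`, `κ g⁻¹ = κ g`
(as in `core`), so the commutator rule `S_el` (3) gives
`κ (e_rt(lm)) ≤ 2 κ (e_rs(l)) + 2 κ (e_st(m))`. With `e_ij(a), e_jk(b), e_ki(c)` at most `d`:
`e_ik(ab), e_kj(ca), e_ji(bc) ≤ 4d`; with `t = abc`: `e_ij(at) = e_ij(ab·ca) ≤ 16d`,
`e_jk(bt) = e_jk(bc·ab) ≤ 16 d`, `e_ji(bct) = e_ji(bt·c) ≤ 34d`.
`U z = piG (TT (z.1 • (a b) • b_i + z.2 • b • b_j) ψ_k)` (`b_x = bv h x`, `ψ_y = fv h y`) is additive;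
`U (1, 0) = e_ik(ab)`, `U (0, 1) = e_jk(b)`. By `T_inter`: `a1 = e_ij(a)` and `a3 = e_ij(at)` map
`z` to `(z.1 + z.2, z.2)`, `(z.1 + t z.2, z.2)` (`a · b z.2 = (a b) z.2`), and `b1 = e_ji(bc)`,
`b3 = e_ji(bct)` map `z` to `(z.1, z.2 + t z.1)`, `(z.1, z.2 + t² z.1)`
(`bc · ab z.1 = b t z.1`). All displacements are `≤ 34 d`, so `RelC C` gives
`‖U z v - v‖ ≤ 34 C d` for all `z`. The vectors `z.1 • (ab) • b_i + z.2 • b • b_j` form a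
two-dimensional subspace of `ker ψ_k`; apply `bounded_gen` with `c = δ + 34 C d`. -/
def S_grp : Prop := ∀ C : ℝ, 0 < C → RelC C → ∀ (n p : ℕ) [Fact p.Prime]
  (S : Finset (SpecialLinearGroup (Fin n) (ZMod p))), (∀ s ∈ S, s⁻¹ ∈ S) →
  Subgroup.closure (S : Set (SpecialLinearGroup (Fin n) (ZMod p))) = ⊤ →
  ∀ (h : GL (Fin n) (ZMod p)) (i j k : Fin n), i ≠ j → i ≠ k → j ≠ k →
  ∀ a b c : ZMod p, a ≠ 0 → b ≠ 0 → c ≠ 0 →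
  ∀ v : EuclideanSpace ℂ (SpecialLinearGroup (Fin n) (ZMod p)), ‖v‖ = 1 →
  ∀ δ d : ℝ, 0 ≤ δ → 0 ≤ d → (∀ s ∈ S, ‖piG s v - v‖ ≤ δ) →
  ‖piG (el h i j a) v - v‖ ≤ d → ‖piG (el h j k b) v - v‖ ≤ d → ‖piG (el h k i c) v - v‖ ≤ d →
  ∀ g, ‖piG g v - v‖ ≤
    3 * n * ((5 * n + 2) * ((20 * n + 8) ^ n * (δ + 34 * C * d)))

/-- PIECE dig. Growth along a digraph (pure combinatorics).
Proof: fix `x`. Let `P 0 = {y | E x y}`, `P (m+1) = P m ∪ {t | t ≠ x ∧ ∃ s ∈ P m, E s t}` (finsets of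
`Fin n`, classical). Then `x ∉ P m`, and `W m x y` for `y ∈ P m` (induction). If
`P m ≠ P (m+1)` for all `m < n` then `card (P n) ≥ n`, but `x ∉ P n`, contradiction; so
`P m = P (m+1)` for some `m < n`, hence `P n = P (n+1)` is closed: `s ∈ P n`, `E s t`, `t ≠ x` imply
`t ∈ P n`. By induction on `ReflTransGen E x y`: `y = x` or `y ∈ P n` (if `y = x` and `E x z`, then
`z ∈ P 0 ⊆ P n`). -/
def S_dig : Prop := ∀ (n : ℕ) (E : Fin n → Fin n → Prop) (W : ℕ → Fin n → Fin n → Prop),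
  (∀ x y, E x y → x ≠ y) → (∀ x y, E x y → W 0 x y) →
  (∀ m x y, W m x y → W (m + 1) x y) →
  (∀ m r s t, r ≠ s → s ≠ t → r ≠ t → W m r s → E s t → W (m + 1) r t) →
  ∀ x y, x ≠ y → Relation.ReflTransGen E x y → W n x y

open Matrix in
/-- PIECE fin (uses `S_rel`, `S_el`, `S_grp`, `S_dig`; imitate
`Results/MP_2ab1ce_al/SeededExpansion.lean`). The final theorem.
Proof: let `C` be from `S_rel`, `A = 3n (5n+2) (20n+8)^n (1 + 34 C 4^n) + 1`,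
`c = 1/(8 A²)`. Suppose the inequality fails for `Y ≠ ∅`: `|∂Y| < (c/N²) |Y|`. Put
`δ = 1/(2 A N)`, so `δ²/2 = c/N²`. The unit vector `v = 1_Y/‖1_Y‖` satisfies `‖piG s v - v‖ ≤ δ` for
`s ∈ S` (`near_inv`). By `word_bound` each `e_xy(a_xy)` (`E x y`) moves `v` by at most `d0 = N δ`
(it equals the word `l.prod`, by `S_el` (2)). With
`W m x y = ∃ l ≠ 0, ‖piG (el h x y l) v - v‖ ≤ 4^m d0`, the commutator rule gives
`2 4^m d0 + 2 d0 ≤ 4^(m+1) d0`, so by `S_dig` all pairs `x ≠ y` in `I` satisfy `W n x y`. Take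
distinct `i, j, k ∈ I` (`Finset.two_lt_card`) and apply `S_grp` with `d = 4^n N δ`: every
`g` moves `v` by at most `3n(5n+2)(20n+8)^n (δ + 34 C 4^n N δ) ≤ A N δ = 1/2`; but
`exists_far` gives `g` moving `v` by at least `1`. -/
def S_fin : Prop := ∀ n : ℕ,
  ∃ c : ℝ, 0 < c ∧ ∀ (N p : ℕ) [Fact p.Prime], 1 ≤ N →
    ∀ S : Finset (SpecialLinearGroup (Fin n) (ZMod p)),
    (∀ s ∈ S, s⁻¹ ∈ S) →
    Subgroup.closure (S : Set (SpecialLinearGroup (Fin n) (ZMod p))) = ⊤ →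
    ∀ (h : GL (Fin n) (ZMod p)) (E : Fin n → Fin n → Prop) (a : Fin n → Fin n → ZMod p),
    (∀ x y, E x y → x ≠ y ∧ a x y ≠ 0 ∧
      ∃ l : List (SpecialLinearGroup (Fin n) (ZMod p)), l.length ≤ N ∧ (∀ s ∈ l, s ∈ S) ∧
        ((l.prod : SpecialLinearGroup (Fin n) (ZMod p)) : Matrix (Fin n) (Fin n) (ZMod p)) =
          (h : Matrix (Fin n) (Fin n) (ZMod p)) * transvection x y (a x y) *
            ((h⁻¹ : GL (Fin n) (ZMod p)) : Matrix (Fin n) (Fin n) (ZMod p))) →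
    ∀ I : Finset (Fin n), 3 ≤ I.card → (∀ x ∈ I, ∀ y ∈ I, Relation.ReflTransGen E x y) →
    ∀ Y : Finset (SpecialLinearGroup (Fin n) (ZMod p)),
      2 * Y.card ≤ Fintype.card (SpecialLinearGroup (Fin n) (ZMod p)) →
      c / (N : ℝ) ^ 2 * Y.card ≤ (((Y ×ˢ S).filter (fun x => x.2 * x.1 ∉ Y)).card : ℝ)

end Pool.Agent.MP_2ab1ce_al.TR
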